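import Pool.Agent.W510.CG.Stm

/-!
Closed subgroups of the symmetric group: the assembly.
-/

set_option autoImplicit false

namespace Pool.Agent.W510.CG

theorem main_of (hT : S_TREE) (hF : S_FOUR) (hTop : S_TOP) (hA : S_ALL4) (hAdd : S_ADD)
    (hP : S_PRES) (hC : S_CONV) : S_MAIN := by
  intro H hcl hI
  by_cases h : ∀ l : L0, 0 < l → Z (br : (L0 →₀ ℤ) × L0 → Pt L0 → Option ℤ) H (std l)
  · left
    have h4 := hA L0 H hI h
    have hall := hF (Pt L0) ((L0 →₀ ℤ) × L0) (Option ℤ) br (Iso L0) H ⟨(0, 0)⟩ (hT L0) hI h4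
    exact hTop (Pt L0) ((L0 →₀ ℤ) × L0) (Option ℤ) br (Iso L0) H (hT L0) hI hcl hall
  · right
    push Not at h
    obtain ⟨n, hn⟩ := hC (fun l => Z (br : (L0 →₀ ℤ) × L0 → Pt L0 → Option ℤ) H (std l))
      (fun l m hl hm => hAdd L0 H hI l m hl hm) h
    exact ⟨n, hP L0 H (Gam n) hI hn⟩

instance : Countable (Pt L0) := by
  haveI : Countable L0 := inferInstanceAs (Countable (ℕ →₀ ℤ))
  infer_instance

theorem final_of (hM : S_MAIN) (hI : S_ISOK) (hcl : S_CLOSED) (hne : S_NETOP) (hst : S_STEP)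
    (hss : S_STRICT) :
    ¬ (∀ (M : Type) [Countable M] (G : Subgroup (Equiv.Perm M)),
      (∀ σ : Equiv.Perm M,
        (∀ A : Finset M, ∃ g ∈ G, ∀ a ∈ A, g a = σ a) → σ ∈ G) →
      G ≠ ⊤ →
      ∃ F : Subgroup (Equiv.Perm M),
        (∀ σ : Equiv.Perm M,
          (∀ A : Finset M, ∃ g ∈ F, ∀ a ∈ A, g a = σ a) → σ ∈ F) ∧
        G ≤ F ∧ F ≠ ⊤ ∧
        ∀ F' : Subgroup (Equiv.Perm M),
          (∀ σ : Equiv.Perm M,
            (∀ A : Finset M, ∃ g ∈ F', ∀ a ∈ A, g a = σ a) → σ ∈ F') →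
          F ≤ F' → F' = F ∨ F' = ⊤) := by
  intro hall
  obtain ⟨F, hFc, hGF, hFt, hmax⟩ := hall (Pt L0) (K 0) (hcl 0) (hne 0)
  rcases hM F hFc ((hI 0).trans hGF) with h | ⟨n, hn⟩
  · exact hFt h
  · have h1 : K n = F := (hmax (K n) (hcl n) hn).resolve_right (hne n)
    have h2 : K (n + 1) = F := (hmax (K (n + 1)) (hcl (n + 1)) (hn.trans (hst n))).resolve_right
      (hne (n + 1))
    obtain ⟨g, hg, hg'⟩ := hss n
    rw [h2, ← h1] at hg
    exact hg' hg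

end Pool.Agent.W510.CG
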