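import Mathlib

/-!
Closed subgroups of the symmetric group of a countable set: definitions.

* abstract part: a tree seen from its ends, given by the branch map `br : V → M → B`
  (`br γ x` is the branch at the node `γ` that contains the end `x`);
* the model: ends of a `Λ`-tree, `Λ` a linearly ordered abelian group, the ends are the
  finitely supported functions `Λ → ℤ` and one more end `none`.
-/

set_option autoImplicit false
set_option linter.unusedSectionVars false

namespace Pool.Agent.W510.CG

section Abstract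

variable {M V B : Type}

/-- A tree seen from its ends, with a group `G` of permutations of the ends. -/
structure IsTree (br : V → M → B) (G : Subgroup (Equiv.Perm M)) : Prop where
  /-- infinitely many branches at each node -/
  inf : ∀ (γ : V) (S : Finset B), ∃ x : M, br γ x ∉ S
  /-- three ends have a centre -/
  ctr : ∀ a b c : M, a ≠ b → a ≠ c → b ≠ c →
    ∃ γ : V, br γ a ≠ br γ b ∧ br γ a ≠ br γ c ∧ br γ b ≠ br γ c
  /-- two ends in the same branch at `γ` are separated further away -/
  sub : ∀ (γ : V) (x y z : M), x ≠ y → br γ x = br γ y → br γ z ≠ br γ x →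
    ∃ δ : V, br δ x ≠ br δ y ∧ br δ x ≠ br δ z ∧ br δ y ≠ br δ z ∧
      ∀ t : M, br γ t = br γ x ∨ br δ t = br δ z
  /-- local transitivity at a node -/
  ht : ∀ (γ : V) (x y : M), ∃ g ∈ G, g x = y ∧
    (∀ z : M, br γ z ≠ br γ x → br γ z ≠ br γ y → g z = z) ∧
    ∀ z z' : M, br γ (g z) = br γ (g z') ↔ br γ z = br γ z'
  /-- transitivity on nodes -/
  nt : ∀ γ γ' : V, ∃ g ∈ G, ∀ z z' : M, br γ' (g z) = br γ' (g z') ↔ br γ z = br γ z'

/-- the set `E` is mapped by an element of `H` to a set whose points lie in distinct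
branches at some node -/
def Z (br : V → M → B) (H : Subgroup (Equiv.Perm M)) (E : Set M) : Prop :=
  ∃ h ∈ H, ∃ γ : V, Set.InjOn (fun x => br γ (h x)) E

theorem Z.mono {br : V → M → B} {H : Subgroup (Equiv.Perm M)} {E F : Set M} (h : Z br H F)
    (hEF : E ⊆ F) : Z br H E := by
  obtain ⟨g, hg, γ, hi⟩ := h
  exact ⟨g, hg, γ, hi.mono hEF⟩

/-- `Z` is invariant under `H` -/
theorem Z.image {br : V → M → B} {H : Subgroup (Equiv.Perm M)} {E : Set M} (h : Z br H E)
    {k : Equiv.Perm M} (hk : k ∈ H) : Z br H (k '' E) := by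
  obtain ⟨g, hg, γ, hi⟩ := h
  refine ⟨g * k⁻¹, H.mul_mem hg (H.inv_mem hk), γ, ?_⟩
  rintro _ ⟨x, hx, rfl⟩ _ ⟨y, hy, rfl⟩ hxy
  have e1 : k⁻¹ (k x) = x := by simp
  have e2 : k⁻¹ (k y) = y := by simp
  simp only [Equiv.Perm.coe_mul, Function.comp_apply, e1, e2] at hxy
  rw [hi hx hy hxy]

theorem Z_image_iff {br : V → M → B} {H : Subgroup (Equiv.Perm M)} {E : Set M}
    {k : Equiv.Perm M} (hk : k ∈ H) : Z br H (k '' E) ↔ Z br H E := by
  refine ⟨fun h => ?_, fun h => h.image hk⟩
  have := h.image (H.inv_mem hk)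
  rwa [← Set.image_comp, show ((k⁻¹ : Equiv.Perm M) : M → M) ∘ k = id from by
    funext x; simp, Set.image_id] at this

/-- closed in the topology of pointwise convergence -/
def Closed (H : Subgroup (Equiv.Perm M)) : Prop :=
  ∀ σ : Equiv.Perm M, (∀ A : Finset M, ∃ g ∈ H, ∀ a ∈ A, g a = σ a) → σ ∈ H

/-- pairwise distinct -/
def Dist4 (a b c d : M) : Prop := a ≠ b ∧ a ≠ c ∧ a ≠ d ∧ b ≠ c ∧ b ≠ d ∧ c ≠ d

end Abstract

section Model

variable {L : Type} [AddCommGroup L] [LinearOrder L] [IsOrderedAddMonoid L]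

/-- the ends -/
abbrev Pt (L : Type) [AddCommGroup L] : Type := Option (L →₀ ℤ)

/-- the largest element of the support (`0` for the zero function) -/
noncomputable def v (x : L →₀ ℤ) : L :=
  if h : x.support.Nonempty then x.support.max' h else 0

/-- the level at which two ends separate (`0` if one of them is `none`) -/
noncomputable def w : Pt L → Pt L → L
  | some x, some y => v (x - y)
  | _, _ => 0

/-- the cross ratio -/
noncomputable def Y (a b c d : Pt L) : L := w a d + w b c - w a b - w c d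

/-- the group of permutations preserving the cross ratio of distinct points -/
def Iso (L : Type) [AddCommGroup L] [LinearOrder L] [IsOrderedAddMonoid L] :
    Subgroup (Equiv.Perm (Pt L)) where
  carrier := {g | ∀ a b c d : Pt L, Dist4 a b c d → Y (g a) (g b) (g c) (g d) = Y a b c d}
  mul_mem' := by
    intro g h hg hh a b c d hd
    have hd' : Dist4 (h a) (h b) (h c) (h d) := by
      obtain ⟨h1, h2, h3, h4, h5, h6⟩ := hd
      exact ⟨h.injective.ne h1, h.injective.ne h2, h.injective.ne h3, h.injective.ne h4,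
        h.injective.ne h5, h.injective.ne h6⟩
    simp only [Equiv.Perm.coe_mul, Function.comp_apply]
    rw [hg _ _ _ _ hd', hh _ _ _ _ hd]
  one_mem' := by
    intro a b c d _
    simp
  inv_mem' := by
    intro g hg a b c d hd
    have hd' : Dist4 (g⁻¹ a) (g⁻¹ b) (g⁻¹ c) (g⁻¹ d) := by
      obtain ⟨h1, h2, h3, h4, h5, h6⟩ := hd
      exact ⟨(g⁻¹).injective.ne h1, (g⁻¹).injective.ne h2, (g⁻¹).injective.ne h3,
        (g⁻¹).injective.ne h4, (g⁻¹).injective.ne h5, (g⁻¹).injective.ne h6⟩
    have := hg _ _ _ _ hd'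
    simpa using this.symm

theorem mem_Iso {g : Equiv.Perm (Pt L)} :
    g ∈ Iso L ↔ ∀ a b c d : Pt L, Dist4 a b c d → Y (g a) (g b) (g c) (g d) = Y a b c d :=
  Iff.rfl

open Classical in
/-- the branch at the node `γ = (f, λ)` (the ball of radius `λ` about `f`) containing an end:
`none` is the outer branch, `some z` the branch of the functions that agree with `f` above `λ`
and take the value `z` at `λ`. -/
noncomputable def br (γ : (L →₀ ℤ) × L) : Pt L → Option ℤ
  | none => none
  | some x => if ∀ μ : L, γ.2 < μ → x μ = γ.1 μ then some (x γ.2) else none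

/-- the function with value `1` at `l` and `0` elsewhere -/
noncomputable def δ (l : L) : Pt L := some (Finsupp.single l 1)

/-- the end given by the zero function -/
noncomputable def o : Pt L := some (0 : L →₀ ℤ)

/-- the standard quadruple with cross ratio `l` -/
noncomputable def std (l : L) : Set (Pt L) := {o, δ 0, none, δ l}

/-- the relation `D` belonging to a set `Γ` (a convex subgroup) -/
def D (Γ : Set L) (a b c d : Pt L) : Prop := Dist4 a b c d ∧ 0 < Y a b c d ∧ Y a b c d ∉ Γ

/-- the group of permutations preserving a quaternary relation -/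
def Aut {M : Type} (R : M → M → M → M → Prop) : Subgroup (Equiv.Perm M) where
  carrier := {g | ∀ a b c d : M, R (g a) (g b) (g c) (g d) ↔ R a b c d}
  mul_mem' := by
    intro g h hg hh a b c d
    simp only [Equiv.Perm.coe_mul, Function.comp_apply]
    rw [hg, hh]
  one_mem' := by
    intro a b c d
    simp
  inv_mem' := by
    intro g hg a b c d
    have := hg (g⁻¹ a) (g⁻¹ b) (g⁻¹ c) (g⁻¹ d)
    simpa using this.symm

theorem mem_Aut {M : Type} {R : M → M → M → M → Prop} {g : Equiv.Perm M} :
    g ∈ Aut R ↔ ∀ a b c d : M, R (g a) (g b) (g c) (g d) ↔ R a b c d := Iff.rfl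

/-! basic facts on `v` and `w` -/

theorem v_spec {x : L →₀ ℤ} (hx : x ≠ 0) : x (v x) ≠ 0 ∧ ∀ μ : L, v x < μ → x μ = 0 := by
  have h : x.support.Nonempty := Finsupp.support_nonempty_iff.mpr hx
  have hv : v x = x.support.max' h := by simp [v, h]
  refine ⟨?_, ?_⟩
  · rw [hv]
    exact Finsupp.mem_support_iff.mp (Finset.max'_mem _ h)
  · intro μ hμ
    by_contra hne
    have := Finset.le_max' x.support μ (Finsupp.mem_support_iff.mpr hne)
    rw [hv] at hμ
    exact absurd hμ (not_lt.mpr this)

theorem v_eq {x : L →₀ ℤ} {l : L} (h1 : x l ≠ 0) (h2 : ∀ μ : L, l < μ → x μ = 0) : v x = l := by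
  have hx : x ≠ 0 := by
    intro h
    simp [h] at h1
  obtain ⟨h3, h4⟩ := v_spec hx
  rcases lt_trichotomy (v x) l with h | h | h
  · exact absurd (h4 l h) h1
  · exact h
  · exact absurd (h2 _ h) h3

theorem v_neg (x : L →₀ ℤ) : v (-x) = v x := by
  by_cases hx : x = 0
  · simp [hx]
  · obtain ⟨h3, h4⟩ := v_spec hx
    exact v_eq (by simpa using h3) (fun μ hμ => by simpa using h4 μ hμ)

theorem v_single (l : L) (z : ℤ) (hz : z ≠ 0) : v (Finsupp.single l z) = l := by
  refine v_eq (by simpa using hz) ?_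
  intro μ hμ
  simp [ne_of_lt hμ]

/-- the ultrametric inequality, strict form -/
theorem v_add_eq {x y : L →₀ ℤ} (hx : x ≠ 0) (h : y = 0 ∨ v y < v x) : v (x + y) = v x := by
  obtain ⟨h3, h4⟩ := v_spec hx
  rcases h with h | h
  · simp [h]
  · by_cases hy : y = 0
    · simp [hy]
    · obtain ⟨h5, h6⟩ := v_spec hy
      refine v_eq ?_ ?_
      · simpa [h6 _ h] using h3
      · intro μ hμ
        simp [h4 μ hμ, h6 μ (h.trans hμ)]

theorem w_comm (a b : Pt L) : w a b = w b a := by
  rcases a with _ | x <;> rcases b with _ | y <;> simp [w]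
  rw [← neg_sub, v_neg]

@[simp] theorem w_none_left (a : Pt L) : w none a = 0 := by cases a <;> rfl

@[simp] theorem w_none_right (a : Pt L) : w a none = 0 := by cases a <;> rfl

@[simp] theorem w_some (x y : L →₀ ℤ) : w (some x) (some y) = v (x - y) := rfl

theorem br_none (γ : (L →₀ ℤ) × L) : br γ none = none := rfl

theorem br_some_of {γ : (L →₀ ℤ) × L} {x : L →₀ ℤ} (h : ∀ μ : L, γ.2 < μ → x μ = γ.1 μ) :
    br γ (some x) = some (x γ.2) := by simp only [br]; exact if_pos h

theorem br_some_not {γ : (L →₀ ℤ) × L} {x : L →₀ ℤ} (h : ¬ ∀ μ : L, γ.2 < μ → x μ = γ.1 μ) :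
    br γ (some x) = none := by simp only [br]; exact if_neg h

theorem br_eq_some {γ : (L →₀ ℤ) × L} {x : L →₀ ℤ} {z : ℤ} :
    br γ (some x) = some z ↔ (∀ μ : L, γ.2 < μ → x μ = γ.1 μ) ∧ x γ.2 = z := by
  by_cases h : ∀ μ : L, γ.2 < μ → x μ = γ.1 μ
  · rw [br_some_of h]
    constructor
    · intro h'
      exact ⟨h, by simpa using h'⟩
    · intro h'
      simp [h'.2]
  · rw [br_some_not h]
    simp [h]

end Model

section Chain

/-- the ordered group: direct sum of copies of `ℤ`, the largest index dominates -/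
abbrev L0 : Type := Colex (ℕ →₀ ℤ)

/-- the convex subgroups of `L0` -/
def Gam (n : ℕ) : AddSubgroup L0 where
  carrier := {x | ∀ i : ℕ, n ≤ i → (ofColex x) i = 0}
  add_mem' := by
    intro x y hx hy i hi
    have h1 := hx i hi
    have h2 := hy i hi
    simp [h1, h2]
  zero_mem' := by
    intro i _
    simp
  neg_mem' := by
    intro x hx i hi
    have h1 := hx i hi
    simp [h1]

theorem mem_Gam {n : ℕ} {x : L0} : x ∈ Gam n ↔ ∀ i : ℕ, n ≤ i → (ofColex x) i = 0 := Iff.rfl

/-- the `n`-th unit -/
noncomputable def e (n : ℕ) : L0 := toColex (Finsupp.single n 1)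

/-- the chain of closed groups -/
def K (n : ℕ) : Subgroup (Equiv.Perm (Pt L0)) := Aut (D (Gam n : Set L0))

end Chain

end Pool.Agent.W510.CG
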