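import Pool.Agent.W510.CG.Defs

/-!
Closed subgroups of the symmetric group: the statements of the parts.
-/

set_option autoImplicit false

namespace Pool.Agent.W510.CG

/-! Abstract part. -/

/-- finite local transitivity -/
def S_HTF : Prop := ∀ (M V B : Type) (br : V → M → B) (G : Subgroup (Equiv.Perm M)),
  IsTree br G → ∀ (γ : V) (b0 : B) (S : Set M) (f : M → M), S.Finite →
    (∀ x ∈ S, br γ x ≠ b0) → Set.InjOn (br γ) S →
    (∀ x ∈ S, br γ (f x) ≠ b0) → Set.InjOn (fun x => br γ (f x)) S →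
    ∃ g ∈ G, (∀ z : M, br γ z = b0 → g z = z) ∧ ∀ x ∈ S, g x = f x

/-- rule 2 -/
def S_R2 : Prop := ∀ (M V B : Type) (br : V → M → B) (H : Subgroup (Equiv.Perm M)),
  ∀ (X : Set M) (y z : M), y ∈ X → z ∈ X → y ≠ z → Z br H (X \ {y}) →
    ∃ y' ∈ X, y' ≠ y ∧ Z br H (X \ {y'})

/-- rule 1 -/
def S_R1 : Prop := ∀ (M V B : Type) (br : V → M → B) (G H : Subgroup (Equiv.Perm M)),
  IsTree br G → G ≤ H → ∀ (X : Set M) (y0 y1 y2 : M), X.Finite → y0 ∈ X → y1 ∈ X → y2 ∈ X →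
    y0 ≠ y1 → y0 ≠ y2 → y1 ≠ y2 → Z br H (X \ {y0}) → Z br H (X \ {y1}) → Z br H (X \ {y2}) →
    ∀ y ∈ X, Z br H (X \ {y})

/-- exchange of the two points `a1 a2` by a star -/
def S_EXCH : Prop := ∀ (M V B : Type) (br : V → M → B) (G H : Subgroup (Equiv.Perm M)),
  IsTree br G → G ≤ H → ∀ (u : V) (p : B) (A : Set M) (a1 a2 : M), A.Infinite →
    (∀ x ∈ A, br u x = p) → br u a1 ≠ p → br u a2 ≠ p → br u a1 ≠ br u a2 →
    (∀ E : Set M, E.Finite → E ⊆ insert a1 (insert a2 A) → Z br H E) →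
    ∀ C : Set M, (∀ x ∈ C, br u x ≠ p) → Set.InjOn (br u) C →
      ∀ E : Set M, E.Finite → E ⊆ C ∪ A → Z br H E

/-- all cherries -/
def S_IV : Prop := ∀ (M V B : Type) (br : V → M → B) (G H : Subgroup (Equiv.Perm M)),
  IsTree br G → G ≤ H → (∀ a b c d : M, Dist4 a b c d → Z br H {a, b, c, d}) →
    ∀ (u : V) (p : B) (v : V) (q : B), (∀ t : M, br u t = p ∨ br v t = q) →
    ∀ (C : Set M) (a3 a4 : M), C.Finite → (∀ x ∈ C, br u x ≠ p) → Set.InjOn (br u) C →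
      br v a3 ≠ q → br v a4 ≠ q → br v a3 ≠ br v a4 → Z br H (insert a3 (insert a4 C))

/-- four points suffice -/
def S_FOUR : Prop := ∀ (M V B : Type) (br : V → M → B) (G H : Subgroup (Equiv.Perm M)),
  Nonempty V → IsTree br G → G ≤ H → (∀ a b c d : M, Dist4 a b c d → Z br H {a, b, c, d}) →
    ∀ E : Set M, E.Finite → Z br H E

/-- closed and everything is a star: the whole group -/
def S_TOP : Prop := ∀ (M V B : Type) (br : V → M → B) (G H : Subgroup (Equiv.Perm M)),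
  IsTree br G → G ≤ H → Closed H → (∀ E : Set M, E.Finite → Z br H E) → H = ⊤

/-! The model. -/

def S_INF : Prop := ∀ (L : Type) [AddCommGroup L] [LinearOrder L] [IsOrderedAddMonoid L]
  (γ : (L →₀ ℤ) × L) (S : Finset (Option ℤ)), ∃ x : Pt L, br γ x ∉ S

def S_CTR : Prop := ∀ (L : Type) [AddCommGroup L] [LinearOrder L] [IsOrderedAddMonoid L]
  (a b c : Pt L), a ≠ b → a ≠ c → b ≠ c →
    ∃ γ : (L →₀ ℤ) × L, br γ a ≠ br γ b ∧ br γ a ≠ br γ c ∧ br γ b ≠ br γ c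

def S_SUB : Prop := ∀ (L : Type) [AddCommGroup L] [LinearOrder L] [IsOrderedAddMonoid L]
  (γ : (L →₀ ℤ) × L) (x y z : Pt L), x ≠ y → br γ x = br γ y → br γ z ≠ br γ x →
    ∃ δ : (L →₀ ℤ) × L, br δ x ≠ br δ y ∧ br δ x ≠ br δ z ∧ br δ y ≠ br δ z ∧
      ∀ t : Pt L, br γ t = br γ x ∨ br δ t = br δ z

/-- the base node -/
def γ0 (L : Type) [AddCommGroup L] [LinearOrder L] [IsOrderedAddMonoid L] :
    (L →₀ ℤ) × L := (0, 0)

/-- the inversion exchanges the outer branch and the branch of `o` at the base node -/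
def S_IOTA : Prop := ∀ (L : Type) [AddCommGroup L] [LinearOrder L] [IsOrderedAddMonoid L],
  ∃ ι ∈ Iso L, (∀ z : Pt L, br (γ0 L) z ≠ none → br (γ0 L) z ≠ some 0 → ι z = z) ∧
    (∀ z : Pt L, br (γ0 L) z = none → br (γ0 L) (ι z) = some 0) ∧
    (∀ z : Pt L, br (γ0 L) z = some 0 → br (γ0 L) (ι z) = none)

/-- local exchange of two inner branches at the base node -/
def S_LOC : Prop := ∀ (L : Type) [AddCommGroup L] [LinearOrder L] [IsOrderedAddMonoid L]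
  (x y : Pt L), br (γ0 L) x ≠ none → br (γ0 L) y ≠ none →
    ∃ g ∈ Iso L, g x = y ∧
      (∀ z : Pt L, br (γ0 L) z ≠ br (γ0 L) x → br (γ0 L) z ≠ br (γ0 L) y → g z = z) ∧
      ∀ z : Pt L, br (γ0 L) (g z) = Equiv.swap (br (γ0 L) x) (br (γ0 L) y) (br (γ0 L) z)

def S_HT0 : Prop := ∀ (L : Type) [AddCommGroup L] [LinearOrder L] [IsOrderedAddMonoid L]
  (x y : Pt L), ∃ g ∈ Iso L, g x = y ∧
      (∀ z : Pt L, br (γ0 L) z ≠ br (γ0 L) x → br (γ0 L) z ≠ br (γ0 L) y → g z = z) ∧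
      ∀ z : Pt L, br (γ0 L) (g z) = Equiv.swap (br (γ0 L) x) (br (γ0 L) y) (br (γ0 L) z)

/-- every node can be moved to the base node -/
def S_NT0 : Prop := ∀ (L : Type) [AddCommGroup L] [LinearOrder L] [IsOrderedAddMonoid L]
  (γ : (L →₀ ℤ) × L), ∃ τ ∈ Iso L, ∀ z z' : Pt L,
    br (γ0 L) (τ z) = br (γ0 L) (τ z') ↔ br γ z = br γ z'

def S_TREE : Prop := ∀ (L : Type) [AddCommGroup L] [LinearOrder L] [IsOrderedAddMonoid L],
  IsTree (br : (L →₀ ℤ) × L → Pt L → Option ℤ) (Iso L)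

/-- three points can be moved to `o`, `δ 0`, `none` -/
def S_STD3 : Prop := ∀ (L : Type) [AddCommGroup L] [LinearOrder L] [IsOrderedAddMonoid L]
  (a b c : Pt L), a ≠ b → a ≠ c → b ≠ c → ∃ g ∈ Iso L, g a = o ∧ g b = δ 0 ∧ g c = none

/-- four points with positive cross ratio can be moved to the standard position -/
def S_STD4 : Prop := ∀ (L : Type) [AddCommGroup L] [LinearOrder L] [IsOrderedAddMonoid L]
  (a b c d : Pt L), Dist4 a b c d → 0 < Y a b c d →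
    ∃ g ∈ Iso L, g a = o ∧ g b = δ 0 ∧ g c = none ∧ g d = δ (Y a b c d)

/-- the four point condition -/
def S_CL : Prop := ∀ (L : Type) [AddCommGroup L] [LinearOrder L] [IsOrderedAddMonoid L]
  (a b c d : Pt L), Dist4 a b c d →
    (0 < Y a b c d ∧ w a c + w b d = w a d + w b c) ∨
    (0 < Y a c b d ∧ w a b + w c d = w a d + w b c) ∨
    (0 < Y a d b c ∧ w a b + w c d = w a c + w b d) ∨
    (Z (br : (L →₀ ℤ) × L → Pt L → Option ℤ) (Iso L) {a, b, c, d} ∧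
      w a b + w c d = w a c + w b d ∧ w a c + w b d = w a d + w b c)

/-! Overgroups of `Iso`. -/

def S_ZSTD : Prop := ∀ (L : Type) [AddCommGroup L] [LinearOrder L] [IsOrderedAddMonoid L]
  (H : Subgroup (Equiv.Perm (Pt L))), Iso L ≤ H → ∀ a b c d : Pt L, Dist4 a b c d →
    0 < Y a b c d →
    (Z (br : (L →₀ ℤ) × L → Pt L → Option ℤ) H {a, b, c, d} ↔ Z br H (std (Y a b c d)))

def S_ADD : Prop := ∀ (L : Type) [AddCommGroup L] [LinearOrder L] [IsOrderedAddMonoid L]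
  (H : Subgroup (Equiv.Perm (Pt L))), Iso L ≤ H → ∀ l m : L, 0 < l → 0 < m →
    (Z (br : (L →₀ ℤ) × L → Pt L → Option ℤ) H (std (l + m)) ↔
      Z br H (std l) ∧ Z br H (std m))

/-- if all standard quadruples are stars then all quadruples are -/
def S_ALL4 : Prop := ∀ (L : Type) [AddCommGroup L] [LinearOrder L] [IsOrderedAddMonoid L]
  (H : Subgroup (Equiv.Perm (Pt L))), Iso L ≤ H →
    (∀ l : L, 0 < l → Z (br : (L →₀ ℤ) × L → Pt L → Option ℤ) H (std l)) →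
    ∀ a b c d : Pt L, Dist4 a b c d → Z (br : (L →₀ ℤ) × L → Pt L → Option ℤ) H {a, b, c, d}

/-- an overgroup preserves the relation `D Γ` of its subgroup `Γ` -/
def S_PRES : Prop := ∀ (L : Type) [AddCommGroup L] [LinearOrder L] [IsOrderedAddMonoid L]
  (H : Subgroup (Equiv.Perm (Pt L))) (Γ : AddSubgroup L), Iso L ≤ H →
    (∀ l : L, 0 < l → (Z (br : (L →₀ ℤ) × L → Pt L → Option ℤ) H (std l) ↔ l ∈ Γ)) →
    H ≤ Aut (D (Γ : Set L))

/-! The chain. -/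

def S_CONV : Prop := ∀ P : L0 → Prop, (∀ l m : L0, 0 < l → 0 < m → (P (l + m) ↔ P l ∧ P m)) →
  (∃ l : L0, 0 < l ∧ ¬ P l) → ∃ n : ℕ, ∀ l : L0, 0 < l → (P l ↔ l ∈ Gam n)

/-- arithmetic of the chain -/
def S_ARI : Prop := ∀ n : ℕ, 0 < e n ∧ e n ∉ Gam n ∧ e n ∈ Gam (n + 1) ∧
  (∀ s t : L0, 0 ≤ s → s ≤ t → t ∈ Gam n → s ∈ Gam n) ∧
  (∀ s : L0, 0 < s → s ∈ Gam (n + 1) → s ∉ Gam n → 1 ≤ (ofColex s) n) ∧
  (∀ s : L0, 0 < s → s ∉ Gam (n + 1) → 0 < s - e n ∧ s - e n ∉ Gam (n + 1))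

/-- the groups increase -/
def S_STEP : Prop := ∀ n : ℕ, K n ≤ K (n + 1)

/-- strictly -/
def S_STRICT : Prop := ∀ n : ℕ, ∃ g ∈ K (n + 1), g ∉ K n

def S_NETOP : Prop := ∀ n : ℕ, K n ≠ ⊤

def S_CLOSED : Prop := ∀ n : ℕ, Closed (K n)

def S_ISOK : Prop := ∀ n : ℕ, Iso L0 ≤ K n

/-- the theorem on overgroups -/
def S_MAIN : Prop := ∀ H : Subgroup (Equiv.Perm (Pt L0)), Closed H → Iso L0 ≤ H →
  H = ⊤ ∨ ∃ n : ℕ, H ≤ K n

end Pool.Agent.W510.CG
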